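import Pool.Agent.W759.FD.Defs

/-! Task FD-P6c: houses are 1-dependent. -/

namespace Pool.Agent.W563.FD

open MeasureTheory ProbabilityTheory Set Filter
open scoped ENNReal Topology
open Pool.Agent.W759.FD

/-- the character of a finite set -/
noncomputable def chi (S : Finset ℕ) (h : ℕ → Bool) : ℝ := ∏ j ∈ S, sg (h j)

theorem chi_sign (S : Finset ℕ) (h : ℕ → Bool) : chi S h = 1 ∨ chi S h = -1 := by
  classical
  induction S using Finset.induction_on with
  | empty => left; simp [chi]
  | insert a s ha ih =>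
    have h1 : chi (insert a s) h = sg (h a) * chi s h := by
      unfold chi
      rw [Finset.prod_insert ha]
    have h2 : sg (h a) = 1 ∨ sg (h a) = -1 := by
      unfold sg
      cases h a <;> simp
    rw [h1]
    rcases h2 with h2 | h2 <;> rcases ih with h3 | h3 <;> rw [h2, h3] <;> norm_num

theorem measurable_sg : Measurable sg := measurable_from_top

theorem measurable_chi (S : Finset ℕ) : Measurable (chi S) := by
  unfold chi
  exact Finset.measurable_prod S fun j _ => measurable_sg.comp (measurable_pi_apply j)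

theorem integrable_chi (S : Finset ℕ) : Integrable (chi S) coins := by
  refine Integrable.of_bound (measurable_chi S).aestronglyMeasurable 1 (ae_of_all _ fun h => ?_)
  rcases chi_sign S h with h1 | h1 <;> rw [h1] <;> simp

/-- the density -/
noncomputable def D (m : ℕ) (h : ℕ → Bool) : ℝ :=
  blk m 1 h * blk m 2 h * chsh (blk m 0 h) (blk m 3 h)

theorem D_eq (m : ℕ) (h : ℕ → Bool) : D m h =
    (chi (Finset.Ico m (3 * m)) h + chi (Finset.Ico 0 (3 * m)) h + chi (Finset.Ico m (4 * m)) h -
      chi (Finset.Ico 0 (4 * m)) h) / 2 := by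
  have e0 : blk m 0 h = chi (Finset.Ico 0 m) h := by
    unfold blk chi
    rw [zero_mul, zero_add, one_mul]
  have e1 : blk m 1 h = chi (Finset.Ico m (2 * m)) h := by
    unfold blk chi
    rw [one_mul, show (1 + 1) * m = 2 * m by ring]
  have e2 : blk m 2 h = chi (Finset.Ico (2 * m) (3 * m)) h := by
    unfold blk chi
    rw [show (2 + 1) * m = 3 * m by ring]
  have e3 : blk m 3 h = chi (Finset.Ico (3 * m) (4 * m)) h := by
    unfold blk chi
    rw [show (3 + 1) * m = 4 * m by ring]
  have cons : ∀ a b c : ℕ, a ≤ b → b ≤ c →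
      chi (Finset.Ico a c) h = chi (Finset.Ico a b) h * chi (Finset.Ico b c) h := by
    intro a b c hab hbc
    unfold chi
    exact (Finset.prod_Ico_consecutive (fun j => sg (h j)) hab hbc).symm
  have c1 := cons m (2 * m) (3 * m) (by omega) (by omega)
  have c2 := cons 0 m (3 * m) (by omega) (by omega)
  have c3 := cons m (3 * m) (4 * m) (by omega) (by omega)
  have c4 := cons 0 m (4 * m) (by omega) (by omega)
  unfold D chsh
  rw [e0, e1, e2, e3, c4, c2, c3, c1]
  ring

theorem D_nonneg (m : ℕ) (h : ℕ → Bool) : 0 ≤ 1 + D m h := by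
  have hs : ∀ k, blk m k h = 1 ∨ blk m k h = -1 := fun k => chi_sign _ h
  unfold D chsh
  rcases hs 0 with h0 | h0 <;> rcases hs 1 with h1 | h1 <;> rcases hs 2 with h2 | h2 <;>
    rcases hs 3 with h3 | h3 <;> rw [h0, h1, h2, h3] <;> norm_num

/-- the integrals of the characters -/
noncomputable def I (S : Finset ℕ) (E : Set (ℕ → Bool)) : ℝ := ∫ h in E, chi S h ∂coins

/-- the measure of the house -/
noncomputable def J (m : ℕ) (E : Set (ℕ → Bool)) : ℝ :=
  I ∅ E + (I (Finset.Ico m (3 * m)) E + I (Finset.Ico 0 (3 * m)) E + I (Finset.Ico m (4 * m)) E -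
      I (Finset.Ico 0 (4 * m)) E) / 2

theorem lin {Ω : Type} [MeasurableSpace Ω] (μ : Measure Ω) {a b c d e : Ω → ℝ}
    (ha : Integrable a μ) (hb : Integrable b μ) (hc : Integrable c μ) (hd : Integrable d μ)
    (he : Integrable e μ) : ∫ h, (a h + (b h + c h + d h - e h) / 2) ∂μ =
      ∫ h, a h ∂μ + (∫ h, b h ∂μ + ∫ h, c h ∂μ + ∫ h, d h ∂μ - ∫ h, e h ∂μ) / 2 := by
  have h4 : Integrable (fun h => b h + c h) μ := hb.add hc
  have h3 : Integrable (fun h => b h + c h + d h) μ := h4.add hd
  have h1 : Integrable (fun h => b h + c h + d h - e h) μ := h3.sub he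
  have h2 : Integrable (fun h => (b h + c h + d h - e h) / 2) μ := h1.div_const 2
  rw [integral_add ha h2, integral_div, integral_sub h3 he, integral_add h4 hd,
    integral_add hb hc]

theorem J_eq (m : ℕ) (E : Set (ℕ → Bool)) : ∫ h in E, (1 + D m h) ∂coins = J m E := by
  have hi : ∀ S : Finset ℕ, Integrable (chi S) (coins.restrict E) :=
    fun S => (integrable_chi S).restrict
  have h1 : ∀ h, 1 + D m h = chi ∅ h + (chi (Finset.Ico m (3 * m)) h +
      chi (Finset.Ico 0 (3 * m)) h + chi (Finset.Ico m (4 * m)) h -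
      chi (Finset.Ico 0 (4 * m)) h) / 2 := by
    intro h
    rw [D_eq]
    simp [chi]
  simp only [h1]
  exact lin _ (hi _) (hi _) (hi _) (hi _) (hi _)

theorem integrable_D (m : ℕ) : Integrable (fun h => 1 + D m h) coins := by
  have h1 : (fun h => 1 + D m h) = fun h => 1 + (chi (Finset.Ico m (3 * m)) h +
      chi (Finset.Ico 0 (3 * m)) h + chi (Finset.Ico m (4 * m)) h -
      chi (Finset.Ico 0 (4 * m)) h) / 2 := by
    funext h
    rw [D_eq]
  rw [h1]
  exact (integrable_const 1).add (((((integrable_chi _).add (integrable_chi _)).add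
    (integrable_chi _)).sub (integrable_chi _)).div_const 2)

theorem house_eq (m : ℕ) (E : Set (ℕ → Bool)) (hE : MeasurableSet E) :
    house m E = ENNReal.ofReal (J m E) := by
  unfold house
  rw [withDensity_apply _ hE, ← J_eq]
  exact (ofReal_integral_eq_lintegral_ofReal (integrable_D m).restrict
    (ae_of_all _ fun h => D_nonneg m h)).symm

theorem J_nonneg (m : ℕ) (E : Set (ℕ → Bool)) : 0 ≤ J m E := by
  rw [← J_eq]
  exact integral_nonneg fun h => D_nonneg m h

/-! ### flips -/

theorem chi_flip {S : Finset ℕ} {j : ℕ} (hj : j ∈ S) (h : ℕ → Bool) :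
    chi S (Function.update h j (!(h j))) = -chi S h := by
  classical
  unfold chi
  rw [← Finset.mul_prod_erase S _ hj, ← Finset.mul_prod_erase S (fun x => sg (h x)) hj,
    Function.update_self]
  have h1 : ∏ x ∈ S.erase j, sg (Function.update h j (!(h j)) x) = ∏ x ∈ S.erase j, sg (h x) := by
    refine Finset.prod_congr rfl fun x hx => ?_
    rw [Function.update_of_ne (Finset.ne_of_mem_erase hx)]
  rw [h1]
  have h2 : sg (!(h j)) = -sg (h j) := by
    unfold sg
    cases h j <;> simp
  rw [h2, neg_mul]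

theorem measurable_flip (j : ℕ) :
    Measurable (fun h : ℕ → Bool => Function.update h j (!(h j))) := by
  refine measurable_pi_lambda _ fun i => ?_
  by_cases hi : i = j
  · subst hi
    simp only [Function.update_self]
    exact (measurable_from_top (f := fun b : Bool => !b)).comp (measurable_pi_apply i)
  · simp only [Function.update_of_ne hi]
    exact measurable_pi_apply i

theorem flip0 (h0 : P0) {S : Finset ℕ} {j : ℕ} (hj : j ∈ S) {E : Set (ℕ → Bool)}
    (hE : MeasurableSet E) (hinv : ∀ h, Function.update h j (!(h j)) ∈ E ↔ h ∈ E) : I S E = 0 := by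
  have h1 : I S E = -I S E := by
    have h2 : ∫ h, E.indicator (chi S) h ∂coins =
        ∫ h, E.indicator (chi S) (Function.update h j (!(h j))) ∂coins := by
      conv_lhs => rw [← h0 j]
      exact integral_map (measurable_flip j).aemeasurable
        ((measurable_chi S).indicator hE).aestronglyMeasurable
    unfold I
    rw [← integral_indicator hE]
    conv_lhs => rw [h2]
    rw [← integral_neg]
    congr 1
    funext h
    by_cases hh : h ∈ E
    · rw [indicator_of_mem ((hinv h).2 hh), indicator_of_mem hh, chi_flip hj]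
    · rw [indicator_of_notMem (fun h' => hh ((hinv h).1 h')), indicator_of_notMem hh, neg_zero]
  linarith

theorem rs_flip {A : Set ℕ} {j : ℕ} (hj : j ∉ A) (h : ℕ → Bool) :
    rs (T := Bool) A (Function.update h j (!(h j))) = rs A h := by
  funext a
  unfold rs
  rw [Function.update_of_ne]
  rintro rfl
  exact hj a.2

theorem measurable_rs (A : Set ℕ) : Measurable (rs (T := Bool) A) :=
  measurable_pi_lambda _ fun a => measurable_pi_apply (a : ℕ)

/-! ### independence of the coins -/

theorem ind (A B : Set ℕ) (hd : Disjoint A B) :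
    IndepFun (rs (T := Bool) A) (rs (T := Bool) B) coins := by
  have h1 : iIndepFun (fun (i : ℕ) (ω : ℕ → Bool) => ω i) coins :=
    iIndepFun_infinitePi (P := fun _ : ℕ => coin) (X := fun _ b => b) (fun _ => measurable_id)
  have h2 : iIndep (fun i : ℕ => MeasurableSpace.comap (fun ω : ℕ → Bool => ω i) inferInstance)
      coins := h1.iIndep
  have h3 := indep_iSup_of_disjoint (fun i => (measurable_pi_apply i).comap_le) h2 hd
  have key : ∀ A : Set ℕ, MeasurableSpace.comap (rs (T := Bool) A) MeasurableSpace.pi ≤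
      ⨆ i ∈ A, MeasurableSpace.comap (fun ω : ℕ → Bool => ω i) inferInstance := by
    intro A
    rw [← measurable_iff_comap_le]
    refine @measurable_pi_lambda _ _ _ (_) _ _ fun a => ?_
    rw [measurable_iff_comap_le]
    exact le_iSup₂_of_le (a : ℕ) a.2 le_rfl
  exact indep_of_indep_of_le_left (indep_of_indep_of_le_right h3 (key B)) (key A)

theorem mulA {A B : Set ℕ} (hd : Disjoint A B) {S : Finset ℕ} (hS : ∀ j ∈ S, j ∈ A)
    {F0 : Set (A → Bool)} {G0 : Set (B → Bool)} (hF : MeasurableSet F0) (hG : MeasurableSet G0) :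
    I S (rs A ⁻¹' F0 ∩ rs B ⁻¹' G0) = I S (rs A ⁻¹' F0) * I ∅ (rs B ⁻¹' G0) := by
  have mF := measurable_rs A hF
  have mG := measurable_rs B hG
  set φ : (A → Bool) → ℝ := fun x => ∏ j ∈ S.attach, sg (x ⟨j.1, hS j.1 j.2⟩) with hφ
  have hchi : ∀ h, chi S h = φ (rs A h) := by
    intro h
    unfold chi
    rw [hφ]
    exact (Finset.prod_attach S (fun j => sg (h j))).symm
  have mφ : Measurable φ := by
    rw [hφ]
    exact Finset.measurable_prod _ fun j _ => measurable_sg.comp (measurable_pi_apply _)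
  have h1 := (ind A B hd).integral_fun_comp_mul_comp (f := F0.indicator φ)
    (g := G0.indicator (fun _ => (1 : ℝ))) (measurable_rs A).aemeasurable
    (measurable_rs B).aemeasurable (mφ.indicator hF).aestronglyMeasurable
    (measurable_const.indicator hG).aestronglyMeasurable
  unfold I
  rw [← integral_indicator (mF.inter mG), ← integral_indicator mF, ← integral_indicator mG]
  refine Eq.trans ?_ (h1.trans ?_)
  · congr 1
    funext h
    by_cases hf : rs A h ∈ F0
    · by_cases hg : rs B h ∈ G0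
      · have hm : h ∈ rs A ⁻¹' F0 ∩ rs B ⁻¹' G0 := ⟨hf, hg⟩
        rw [indicator_of_mem hm, indicator_of_mem hf, indicator_of_mem hg, mul_one, hchi]
      · have hm : h ∉ rs A ⁻¹' F0 ∩ rs B ⁻¹' G0 := fun h' => hg h'.2
        rw [indicator_of_notMem hm, indicator_of_notMem hg, mul_zero]
    · have hm : h ∉ rs A ⁻¹' F0 ∩ rs B ⁻¹' G0 := fun h' => hf h'.1
      rw [indicator_of_notMem hm, indicator_of_notMem hf, zero_mul]
  · have e1 : ∀ h, F0.indicator φ (rs A h) = (rs A ⁻¹' F0).indicator (chi S) h := by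
      intro h
      by_cases hf : rs A h ∈ F0
      · rw [indicator_of_mem hf, indicator_of_mem (show h ∈ rs A ⁻¹' F0 from hf), hchi]
      · rw [indicator_of_notMem hf, indicator_of_notMem (show h ∉ rs A ⁻¹' F0 from hf)]
    have e2 : ∀ h, G0.indicator (fun _ => (1 : ℝ)) (rs B h) =
        (rs B ⁻¹' G0).indicator (chi ∅) h := by
      intro h
      by_cases hg : rs B h ∈ G0
      · rw [indicator_of_mem hg, indicator_of_mem (show h ∈ rs B ⁻¹' G0 from hg)]
        simp [chi]
      · rw [indicator_of_notMem hg, indicator_of_notMem (show h ∉ rs B ⁻¹' G0 from hg)]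
    simp only [e1, e2]

/-! ### the main argument -/

theorem chain {A B : Set ℕ} (hsep : ∀ i ∈ A, ∀ j ∈ B, 1 < |(i : ℤ) - (j : ℤ)|) {p q i : ℕ}
    (hpi : p ≤ i) (hiq : i < q) (hiA : i ∈ A) (hall : ∀ j, p ≤ j → j < q → j ∈ A ∨ j ∈ B) :
    ∀ j, p ≤ j → j < q → j ∈ A := by
  have up : ∀ k, i + k < q → i + k ∈ A := by
    intro k
    induction k with
    | zero => intro _; exact hiA
    | succ k ih =>
      intro hk
      have h1 := ih (by omega)
      rcases hall (i + (k + 1)) (by omega) hk with h2 | h2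
      · exact h2
      · have h3 := hsep _ h1 _ h2
        exfalso
        push_cast at h3
        rw [show ((i : ℤ) + k) - (i + (k + 1)) = -1 by ring] at h3
        norm_num at h3
  have down : ∀ k, k ≤ i - p → i - k ∈ A := by
    intro k
    induction k with
    | zero => intro _; exact hiA
    | succ k ih =>
      intro hk
      have h1 := ih (by omega)
      rcases hall (i - (k + 1)) (by omega) (by omega) with h2 | h2
      · exact h2
      · have h3 := hsep _ h1 _ h2
        exfalso
        rw [show (((i - k : ℕ) : ℤ)) - ((i - (k + 1) : ℕ) : ℤ) = 1 by omega] at h3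
        norm_num at h3
  intro j hj1 hj2
  rcases le_total i j with h | h
  · have := up (j - i) (by omega)
    rwa [show i + (j - i) = j by omega] at this
  · have := down (i - j) (by omega)
    rwa [show i - (i - j) = j by omega] at this

theorem caseA (h0 : P0) {m : ℕ} (hm : 0 < m) {A B : Set ℕ}
    (hsep : ∀ i ∈ A, ∀ j ∈ B, 1 < |(i : ℤ) - (j : ℤ)|) (hd : Disjoint A B)
    (hA : ∀ j, m ≤ j → j < 3 * m → j ∈ A)
    {F0 : Set (A → Bool)} {G0 : Set (B → Bool)} (hF : MeasurableSet F0) (hG : MeasurableSet G0) :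
    J m (rs A ⁻¹' F0 ∩ rs B ⁻¹' G0) = J m (rs A ⁻¹' F0) * J m (rs B ⁻¹' G0) := by
  have mF := measurable_rs A hF
  have mG := measurable_rs B hG
  have hmA : m ∈ A := hA m le_rfl (by omega)
  have hmB : m ∉ B := fun h => Set.disjoint_left.1 hd hmA h
  have hGz : ∀ S : Finset ℕ, m ∈ S → I S (rs B ⁻¹' G0) = 0 := by
    intro S hS
    refine flip0 h0 hS mG fun h => ?_
    rw [mem_preimage, mem_preimage, rs_flip hmB]
  have hJG : J m (rs B ⁻¹' G0) = I ∅ (rs B ⁻¹' G0) := by
    unfold J
    rw [hGz _ (Finset.mem_Ico.2 ⟨le_rfl, by omega⟩), hGz _ (Finset.mem_Ico.2 ⟨by omega, by omega⟩),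
      hGz _ (Finset.mem_Ico.2 ⟨le_rfl, by omega⟩), hGz _ (Finset.mem_Ico.2 ⟨by omega, by omega⟩)]
    ring
  have hS : ∀ p q : ℕ, p ≤ m → m < q → I (Finset.Ico p q) (rs A ⁻¹' F0 ∩ rs B ⁻¹' G0) =
      I (Finset.Ico p q) (rs A ⁻¹' F0) * I ∅ (rs B ⁻¹' G0) := by
    intro p q hp hq
    by_cases hall : ∀ j, p ≤ j → j < q → j ∈ A ∨ j ∈ B
    · have h1 := chain hsep hp hq hmA hall
      exact mulA hd (fun j hj => h1 j (Finset.mem_Ico.1 hj).1 (Finset.mem_Ico.1 hj).2) hF hG
    · push Not at hall
      obtain ⟨j, hj1, hj2, hjA, hjB⟩ := hall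
      have hjS : j ∈ Finset.Ico p q := Finset.mem_Ico.2 ⟨hj1, hj2⟩
      have e1 : I (Finset.Ico p q) (rs A ⁻¹' F0 ∩ rs B ⁻¹' G0) = 0 := by
        refine flip0 h0 hjS (mF.inter mG) fun h => ?_
        rw [mem_inter_iff, mem_inter_iff, mem_preimage, mem_preimage, mem_preimage, mem_preimage,
          rs_flip hjA, rs_flip hjB]
      have e2 : I (Finset.Ico p q) (rs A ⁻¹' F0) = 0 := by
        refine flip0 h0 hjS mF fun h => ?_
        rw [mem_preimage, mem_preimage, rs_flip hjA]
      rw [e1, e2, zero_mul]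
  rw [hJG]
  unfold J
  rw [mulA hd (S := ∅) (by simp) hF hG, hS _ _ le_rfl (by omega), hS _ _ (by omega) (by omega),
    hS _ _ le_rfl (by omega), hS _ _ (by omega) (by omega)]
  ring

theorem main (h0 : P0) {m : ℕ} (hm : 0 < m) {A B : Set ℕ}
    (hsep : ∀ i ∈ A, ∀ j ∈ B, 1 < |(i : ℤ) - (j : ℤ)|)
    {F0 : Set (A → Bool)} {G0 : Set (B → Bool)} (hF : MeasurableSet F0) (hG : MeasurableSet G0) :
    J m (rs A ⁻¹' F0 ∩ rs B ⁻¹' G0) = J m (rs A ⁻¹' F0) * J m (rs B ⁻¹' G0) := by
  have mF := measurable_rs A hF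
  have mG := measurable_rs B hG
  have hd : Disjoint A B := by
    rw [Set.disjoint_left]
    intro i hi hi'
    have := hsep i hi i hi'
    rw [sub_self, abs_zero] at this
    omega
  by_cases hall : ∀ j, m ≤ j → j < 3 * m → j ∈ A ∨ j ∈ B
  · rcases hall m le_rfl (by omega) with hmA | hmB
    · exact caseA h0 hm hsep hd (chain hsep le_rfl (by omega) hmA hall) hF hG
    · have hsep' : ∀ i ∈ B, ∀ j ∈ A, 1 < |(i : ℤ) - (j : ℤ)| := by
        intro i hi j hj
        rw [abs_sub_comm]
        exact hsep j hj i hi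
      have := caseA h0 hm hsep' hd.symm (chain hsep' le_rfl (by omega) hmB
        (fun j h1 h2 => (hall j h1 h2).symm)) hG hF
      rw [inter_comm, this, mul_comm]
  · push Not at hall
    obtain ⟨j, hj1, hj2, hjA, hjB⟩ := hall
    have red : ∀ E : Set (ℕ → Bool), MeasurableSet E →
        (∀ h, Function.update h j (!(h j)) ∈ E ↔ h ∈ E) → J m E = I ∅ E := by
      intro E hE hinv
      unfold J
      rw [flip0 h0 (Finset.mem_Ico.2 ⟨hj1, hj2⟩) hE hinv,
        flip0 h0 (Finset.mem_Ico.2 ⟨by omega, hj2⟩) hE hinv,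
        flip0 h0 (Finset.mem_Ico.2 ⟨hj1, by omega⟩) hE hinv,
        flip0 h0 (Finset.mem_Ico.2 ⟨by omega, by omega⟩) hE hinv]
      ring
    rw [red _ (mF.inter mG), red _ mF, red _ mG]
    · exact mulA hd (by simp) hF hG
    · intro h
      rw [mem_preimage, mem_preimage, rs_flip hjB]
    · intro h
      rw [mem_preimage, mem_preimage, rs_flip hjA]
    · intro h
      rw [mem_inter_iff, mem_inter_iff, mem_preimage, mem_preimage, mem_preimage, mem_preimage,
        rs_flip hjA, rs_flip hjB]

theorem t6c : P0 → P6c := by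
  intro h0 m hm A B hsep
  rw [indepFun_iff_measure_inter_preimage_eq_mul]
  intro F0 G0 hF hG
  rw [house_eq m _ ((measurable_rs A hF).inter (measurable_rs B hG)),
    house_eq m _ (measurable_rs A hF), house_eq m _ (measurable_rs B hG),
    main h0 hm hsep hF hG, ENNReal.ofReal_mul (J_nonneg m _)]

end Pool.Agent.W563.FD
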